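import Pool.Agent.Y424.LR.TW

/-!
# Nested decision lists of rectangles have large constant rectangles in all submatrices
-/

set_option autoImplicit false
set_option linter.unusedSectionVars false

namespace Pool.Agent.Y424.LR

open Finset

variable {X Y : Type} [Fintype X] [Fintype Y]

/-- The value of a decision list of rectangles whose leaves are functions: the entry `(a, b, v)`
says: if `a x` and `b y` then `v x y`; the first rectangle that contains `(x, y)` decides; `e x y` is
the value if there is none. -/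
def listFun {X Y : Type} (e : X → Y → Bool) :
    List ((X → Bool) × (Y → Bool) × (X → Y → Bool)) → X → Y → Bool
  | [], x, y => e x y
  | (a, b, v) :: l, x, y => if a x = true ∧ b y = true then v x y else listFun e l x y

theorem listFun_rect (e : X → Y → Bool) (P : (X → Y → Bool) → Prop) (he : P e) {α β M : ℕ} :
    ∀ (l : List ((X → Bool) × (Y → Bool) × (X → Y → Bool))), (∀ t ∈ l, P t.2.2) →
    ∀ (A : Finset X) (B : Finset Y), (l.length + 1) * α ≤ M * A.card →
    (l.length + 1) * β ≤ M * B.card →
    ∃ A' ⊆ A, ∃ B' ⊆ B, α ≤ M * A'.card ∧ β ≤ M * B'.card ∧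
      ∃ v, P v ∧ ∀ x ∈ A', ∀ y ∈ B', listFun e l x y = v x y := by
  classical
  intro l
  induction l with
  | nil =>
    intro _ A B hA hB
    rw [List.length_nil, zero_add, one_mul] at hA hB
    exact ⟨A, Subset.rfl, B, Subset.rfl, hA, hB, e, he, fun _ _ _ _ => rfl⟩
  | cons r l ih =>
    obtain ⟨a, b, v⟩ := r
    intro hP A B hA hB
    have hPv : P v := hP (a, b, v) List.mem_cons_self
    have hPl : ∀ t ∈ l, P t.2.2 := fun t ht => hP t (List.mem_cons_of_mem _ ht)
    rw [List.length_cons] at hA hB
    have xA : (l.length + 1 + 1) * α = (l.length + 1) * α + α := by ring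
    have xB : (l.length + 1 + 1) * β = (l.length + 1) * β + β := by ring
    obtain ⟨A1, hA1⟩ : ∃ A1, A1 = A.filter (fun x => a x = true) := ⟨_, rfl⟩
    obtain ⟨A2, hA2⟩ : ∃ A2, A2 = A.filter (fun x => ¬ a x = true) := ⟨_, rfl⟩
    obtain ⟨B1, hB1⟩ : ∃ B1, B1 = B.filter (fun y => b y = true) := ⟨_, rfl⟩
    obtain ⟨B2, hB2⟩ : ∃ B2, B2 = B.filter (fun y => ¬ b y = true) := ⟨_, rfl⟩
    have hA12 : M * A1.card + M * A2.card = M * A.card := by
      rw [← Nat.mul_add, hA1, hA2]
      congr 1
      exact card_filter_add_card_filter_not (s := A) (fun x => a x = true)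
    have hB12 : M * B1.card + M * B2.card = M * B.card := by
      rw [← Nat.mul_add, hB1, hB2]
      congr 1
      exact card_filter_add_card_filter_not (s := B) (fun y => b y = true)
    by_cases h1 : α ≤ M * A1.card
    · by_cases h2 : β ≤ M * B1.card
      · refine ⟨A1, ?_, B1, ?_, h1, h2, v, hPv, fun x hx y hy => ?_⟩
        · rw [hA1]; exact filter_subset _ _
        · rw [hB1]; exact filter_subset _ _
        · rw [hA1] at hx
          rw [hB1] at hy
          exact if_pos ⟨(mem_filter.1 hx).2, (mem_filter.1 hy).2⟩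
      · obtain ⟨A', h3, B', h4, h5, h6, w, hPw, hw⟩ := ih hPl A B2 (by omega) (by omega)
        have hBB : B2 ⊆ B := by
          rw [hB2]
          exact filter_subset _ _
        refine ⟨A', h3, B', h4.trans hBB, h5, h6, w, hPw, fun x hx y hy => ?_⟩
        have hy' := h4 hy
        rw [hB2] at hy'
        have : listFun e ((a, b, v) :: l) x y = listFun e l x y :=
          if_neg (fun h => (mem_filter.1 hy').2 h.2)
        rw [this]
        exact hw x hx y hy
    · obtain ⟨A', h3, B', h4, h5, h6, w, hPw, hw⟩ := ih hPl A2 B (by omega) (by omega)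
      have hAA : A2 ⊆ A := by
        rw [hA2]
        exact filter_subset _ _
      refine ⟨A', h3.trans hAA, B', h4, h5, h6, w, hPw, fun x hx y hy => ?_⟩
      have hx' := h3 hx
      rw [hA2] at hx'
      have : listFun e ((a, b, v) :: l) x y = listFun e l x y :=
        if_neg (fun h => (mem_filter.1 hx').2 h.1)
      rw [this]
      exact hw x hx y hy

/-- One level of a decision list multiplies the constant by its length plus one. -/
theorem rich_listFun {c : ℕ} (e : X → Y → Bool) (he : Rich e c)
    (l : List ((X → Bool) × (Y → Bool) × (X → Y → Bool))) (hl : ∀ t ∈ l, Rich t.2.2 c) :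
    Rich (listFun e l) ((l.length + 1) * c) := by
  intro A B hA hB
  obtain ⟨A', hA', B', hB', h1, h2, v, hv, hvv⟩ :=
    listFun_rect e (fun v => Rich v c) he l hl A B le_rfl le_rfl
  have hA'n : A'.Nonempty := by
    rw [← card_pos]
    by_contra h0
    have : A'.card = 0 := by omega
    rw [this, mul_zero] at h1
    have := card_pos.2 hA
    omega
  have hB'n : B'.Nonempty := by
    rw [← card_pos]
    by_contra h0
    have : B'.card = 0 := by omega
    rw [this, mul_zero] at h2
    have := card_pos.2 hB
    omega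
  obtain ⟨A'', hA'', B'', hB'', h3, h4, b, hb⟩ := hv A' B' hA'n hB'n
  refine ⟨A'', hA''.trans hA', B'', hB''.trans hB', ?_, ?_, b, fun x hx y hy => ?_⟩
  · calc A.card ≤ (l.length + 1) * A'.card := h1
      _ ≤ (l.length + 1) * (c * A''.card) := Nat.mul_le_mul_left _ h3
      _ = (l.length + 1) * c * A''.card := by ring
  · calc B.card ≤ (l.length + 1) * B'.card := h2
      _ ≤ (l.length + 1) * (c * B''.card) := Nat.mul_le_mul_left _ h4
      _ = (l.length + 1) * c * B''.card := by ring
  · rw [hvv x (hA'' hx) y (hB'' hy)]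
    exact hb x hx y hy

/-- `F` is given by decision lists of at most `L` rectangles nested to depth `k`, whose innermost
leaves are functions of the class `𝒬`. -/
inductive Nested {X Y : Type} (L : ℕ) (𝒬 : (X → Y → Bool) → Prop) : ℕ → (X → Y → Bool) → Prop
  | leaf (k : ℕ) (F : X → Y → Bool) (hF : 𝒬 F) : Nested L 𝒬 k F
  | node (k : ℕ) (e : X → Y → Bool) (l : List ((X → Bool) × (Y → Bool) × (X → Y → Bool)))
      (hl : l.length ≤ L) (he : Nested L 𝒬 k e) (ht : ∀ t ∈ l, Nested L 𝒬 k t.2.2) :
      Nested L 𝒬 (k + 1) (listFun e l)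

theorem rich_nested {L c : ℕ} {𝒬 : (X → Y → Bool) → Prop} (h𝒬 : ∀ q, 𝒬 q → Rich q c) :
    ∀ {k : ℕ} {F : X → Y → Bool}, Nested L 𝒬 k F → Rich F ((L + 1) ^ k * c) := by
  intro k F h
  induction h with
  | leaf k F hF =>
    exact (h𝒬 F hF).mono (Nat.le_mul_of_pos_left _ (Nat.pow_pos (Nat.succ_pos L)))
  | node k e l hl he ht ihe iht =>
    refine (rich_listFun e ihe l iht).mono ?_
    rw [pow_succ, mul_comm ((L + 1) ^ k) (L + 1), mul_assoc]
    exact Nat.mul_le_mul_right _ (by omega)

end Pool.Agent.Y424.LR
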