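import Pool.Agent.Y424.LR.Main

/-!
# Rectangle decision lists have large constant rectangles in all submatrices
-/

set_option autoImplicit false
set_option linter.unusedSectionVars false

namespace Pool.Agent.Y424.LR

open Finset

variable {X Y : Type} [Fintype X] [Fintype Y]

/-- The value of a decision list of rectangles: the entry `(a, b, v)` says: if `a x` and `b y` then
`v`; the first rectangle that contains `(x, y)` decides; `e` is the value if there is none. -/
def listVal {X Y : Type} (e : Bool) : List ((X → Bool) × (Y → Bool) × Bool) → X → Y → Bool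
  | [], _, _ => e
  | (a, b, v) :: l, x, y => if a x = true ∧ b y = true then v else listVal e l x y

theorem list_rect (e : Bool) {α β M : ℕ} : ∀ (l : List ((X → Bool) × (Y → Bool) × Bool))
    (A : Finset X) (B : Finset Y), (l.length + 1) * α ≤ M * A.card →
    (l.length + 1) * β ≤ M * B.card →
    ∃ A' ⊆ A, ∃ B' ⊆ B, α ≤ M * A'.card ∧ β ≤ M * B'.card ∧
      ∃ v, ∀ x ∈ A', ∀ y ∈ B', listVal e l x y = v := by
  classical
  intro l
  induction l with
  | nil =>
    intro A B hA hB
    rw [List.length_nil, zero_add, one_mul] at hA hB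
    exact ⟨A, Subset.rfl, B, Subset.rfl, hA, hB, e, fun _ _ _ _ => rfl⟩
  | cons r l ih =>
    obtain ⟨a, b, v⟩ := r
    intro A B hA hB
    rw [List.length_cons] at hA hB
    have xA : (l.length + 1 + 1) * α = (l.length + 1) * α + α := by ring
    have xB : (l.length + 1 + 1) * β = (l.length + 1) * β + β := by ring
    obtain ⟨A1, hA1⟩ : ∃ A1, A1 = A.filter (fun x => a x = true) := ⟨_, rfl⟩
    obtain ⟨A2, hA2⟩ : ∃ A2, A2 = A.filter (fun x => ¬ a x = true) := ⟨_, rfl⟩
    obtain ⟨B1, hB1⟩ : ∃ B1, B1 = B.filter (fun y => b y = true) := ⟨_, rfl⟩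
    obtain ⟨B2, hB2⟩ : ∃ B2, B2 = B.filter (fun y => ¬ b y = true) := ⟨_, rfl⟩
    have hA12 : M * A1.card + M * A2.card = M * A.card := by
      rw [← Nat.mul_add, hA1, hA2]
      congr 1
      exact card_filter_add_card_filter_not (s := A) (fun x => a x = true)
    have hB12 : M * B1.card + M * B2.card = M * B.card := by
      rw [← Nat.mul_add, hB1, hB2]
      congr 1
      exact card_filter_add_card_filter_not (s := B) (fun y => b y = true)
    by_cases h1 : α ≤ M * A1.card
    · by_cases h2 : β ≤ M * B1.card
      · refine ⟨A1, ?_, B1, ?_, h1, h2, v, fun x hx y hy => ?_⟩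
        · rw [hA1]; exact filter_subset _ _
        · rw [hB1]; exact filter_subset _ _
        · rw [hA1] at hx
          rw [hB1] at hy
          exact if_pos ⟨(mem_filter.1 hx).2, (mem_filter.1 hy).2⟩
      · obtain ⟨A', h3, B', h4, h5, h6, w, hw⟩ := ih A B2 (by omega) (by omega)
        have hBB : B2 ⊆ B := by
          rw [hB2]
          exact filter_subset _ _
        refine ⟨A', h3, B', h4.trans hBB, h5, h6, w, fun x hx y hy => ?_⟩
        have hy' := h4 hy
        rw [hB2] at hy'
        have : listVal e ((a, b, v) :: l) x y = listVal e l x y :=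
          if_neg (fun h => (mem_filter.1 hy').2 h.2)
        rw [this]
        exact hw x hx y hy
    · obtain ⟨A', h3, B', h4, h5, h6, w, hw⟩ := ih A2 B (by omega) (by omega)
      have hAA : A2 ⊆ A := by
        rw [hA2]
        exact filter_subset _ _
      refine ⟨A', h3.trans hAA, B', h4, h5, h6, w, fun x hx y hy => ?_⟩
      have hx' := h3 hx
      rw [hA2] at hx'
      have : listVal e ((a, b, v) :: l) x y = listVal e l x y :=
        if_neg (fun h => (mem_filter.1 hx').2 h.1)
      rw [this]
      exact hw x hx y hy

/-- **Rectangle decision lists of length `L` are rich with `c = L + 1`.** -/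
theorem rich_list (e : Bool) (l : List ((X → Bool) × (Y → Bool) × Bool)) :
    Rich (listVal e l) (l.length + 1) := by
  intro A B _ _
  exact list_rect e l A B le_rfl le_rfl

end Pool.Agent.Y424.LR
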