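import Pool.Agent.Y424.LR.Peel

/-!
# The number of distinct rows, numerical bounds, queries
-/

set_option autoImplicit false
set_option linter.unusedSectionVars false

namespace Pool.Agent.Y424.LR

open Finset
open Pool.Agent.TH744.LR (Prot)

variable {X Y : Type} [Fintype X] [Fintype Y]

theorem bv_inj {a b : Bool} (h : bv a = bv b) : a = b := by
  cases a <;> cases b <;> simp_all [bv]

/-- representatives of the distinct rows -/
theorem rows (F : X → Y → Bool) : ∃ (X₀ : Finset X) (π : X → X), X₀.card ≤ 2 ^ (mat F).rank ∧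
    ∀ x, π x ∈ X₀ ∧ F (π x) = F x := by
  classical
  rcases isEmpty_or_nonempty X with hX | ⟨⟨x0⟩⟩
  · exact ⟨∅, id, by simp, fun x => (hX.false x).elim⟩
  obtain ⟨f, hf, hspan, _⟩ :=
    Submodule.exists_fun_fin_finrank_span_eq ℝ (Set.range (mat F).col)
  choose ys hys using hf
  have hr : (mat F).rank = Module.finrank ℝ (Submodule.span ℝ (Set.range (mat F).col)) :=
    Matrix.rank_eq_finrank_span_cols _
  -- the row is determined by the chosen columns
  have hdet : ∀ x x' : X, (∀ i, F x (ys i) = F x' (ys i)) → F x = F x' := by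
    intro x x' h
    funext y
    apply bv_inj
    have h1 : (mat F).col y ∈ Submodule.span ℝ (Set.range f) := by
      rw [hspan]
      exact Submodule.subset_span ⟨y, rfl⟩
    have h2 : ∀ w ∈ Submodule.span ℝ (Set.range f), w x = w x' := by
      intro w hw
      induction hw using Submodule.span_induction with
      | mem w hw =>
        obtain ⟨i, rfl⟩ := hw
        rw [← hys i]
        show bv (F x (ys i)) = bv (F x' (ys i))
        rw [h i]
      | zero => rfl
      | add a b _ _ ha hb => rw [Pi.add_apply, Pi.add_apply, ha, hb]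
      | smul c a _ ha => rw [Pi.smul_apply, Pi.smul_apply, ha]
    exact h2 _ h1
  let pat : X → (Fin (Module.finrank ℝ (Submodule.span ℝ (Set.range (mat F).col))) → Bool) :=
    fun x i => F x (ys i)
  let rep : (Fin (Module.finrank ℝ (Submodule.span ℝ (Set.range (mat F).col))) → Bool) → X :=
    fun w => if h : ∃ x, pat x = w then h.choose else x0
  refine ⟨univ.image rep, fun x => rep (pat x), ?_, fun x => ⟨mem_image_of_mem _ (mem_univ _), ?_⟩⟩
  · refine card_image_le.trans ?_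
    rw [card_univ, Fintype.card_fun, Fintype.card_bool, Fintype.card_fin, hr]
  · apply hdet
    intro i
    have h : ∃ x', pat x' = pat x := ⟨x, rfl⟩
    have h1 : rep (pat x) = h.choose := dif_pos h
    have h2 := congrFun h.choose_spec i
    show F (rep (pat x)) (ys i) = F x (ys i)
    rw [h1]
    exact h2

theorem mat_swap (F : X → Y → Bool) : mat (fun y x => F x y) = (mat F).transpose := rfl

theorem cols (F : X → Y → Bool) : ∃ (Y₀ : Finset Y) (π : Y → Y), Y₀.card ≤ 2 ^ (mat F).rank ∧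
    ∀ y, π y ∈ Y₀ ∧ ∀ x, F x (π y) = F x y := by
  obtain ⟨Y₀, π, h1, h2⟩ := rows (fun y x => F x y)
  rw [mat_swap, Matrix.rank_transpose] at h1
  exact ⟨Y₀, π, h1, fun y => ⟨(h2 y).1, fun x => congrFun (h2 y).2 x⟩⟩

theorem bern (e : ℕ) : ∀ n, e ^ (n + 1) + (n + 1) * e ^ n ≤ (e + 1) ^ (n + 1) := by
  intro n
  induction n with
  | zero => simp
  | succ n ih =>
    calc e ^ (n + 1 + 1) + (n + 1 + 1) * e ^ (n + 1)
        ≤ (e ^ (n + 1) + (n + 1) * e ^ n) * (e + 1) := by
          have : (e ^ (n + 1) + (n + 1) * e ^ n) * (e + 1) =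
            e ^ (n + 1 + 1) + (n + 1 + 1) * e ^ (n + 1) + (n + 1) * e ^ n := by ring
          rw [this]
          exact Nat.le_add_right _ _
      _ ≤ (e + 1) ^ (n + 1) * (e + 1) := Nat.mul_le_mul_right _ ih
      _ = (e + 1) ^ (n + 1 + 1) := by ring

theorem half_pow {c : ℕ} (hc : 1 ≤ c) : 2 * (c - 1) ^ c ≤ c ^ c := by
  obtain ⟨e, rfl⟩ : ∃ e, c = e + 1 := ⟨c - 1, by omega⟩
  have h := bern e e
  rw [Nat.add_sub_cancel]
  have h1 : (e + 1) * e ^ e = e ^ (e + 1) + e ^ e := by ring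
  rw [h1] at h
  omega

theorem half_pow' {c : ℕ} (hc : 1 ≤ c) (m : ℕ) : 2 ^ m * (c - 1) ^ (c * m) ≤ c ^ (c * m) := by
  rw [pow_mul, pow_mul, ← mul_pow]
  exact Nat.pow_le_pow_left (half_pow hc) m

/-- **Large constant rectangles in all submatrices and small rank give short protocols.** -/
theorem bits {F : X → Y → Bool} {c : ℕ} (hc : 1 ≤ c) (hF : Rich F c) {β : ℕ}
    (hβ : c * (2 * (mat F).rank + 1) < 2 ^ β) :
    Prot F (2 * β * ph (mat F).rank + 2) := by
  classical
  set r := (mat F).rank with hr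
  obtain ⟨X₀, π, hX, hπ⟩ := rows F
  obtain ⟨Y₀, σ, hY, hσ⟩ := cols F
  have hsz : (c - 1) ^ (c * (2 * r + 1)) * (X₀.card * Y₀.card) < c ^ (c * (2 * r + 1)) := by
    have h1 : X₀.card * Y₀.card ≤ 2 ^ (2 * r) := by
      calc X₀.card * Y₀.card ≤ 2 ^ r * 2 ^ r := Nat.mul_le_mul hX hY
        _ = 2 ^ (2 * r) := by rw [← pow_add]; congr 1; ring
    have h2 := half_pow' hc (2 * r + 1)
    rcases Nat.eq_zero_or_pos (c - 1) with h0 | h0
    · rw [h0, zero_pow (by positivity), zero_mul]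
      positivity
    · have h3 : 0 < (c - 1) ^ (c * (2 * r + 1)) := by positivity
      calc (c - 1) ^ (c * (2 * r + 1)) * (X₀.card * Y₀.card)
          ≤ (c - 1) ^ (c * (2 * r + 1)) * 2 ^ (2 * r) := Nat.mul_le_mul_left _ h1
        _ < (c - 1) ^ (c * (2 * r + 1)) * 2 ^ (2 * r + 1) := by
            apply Nat.mul_lt_mul_of_pos_left _ h3
            exact Nat.pow_lt_pow_right (by omega) (by omega)
        _ = 2 ^ (2 * r + 1) * (c - 1) ^ (c * (2 * r + 1)) := by ring
        _ ≤ _ := h2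
  obtain ⟨G, hG, hGF⟩ := protocol hF hβ r X₀ Y₀ hsz (fun h => by
    have := h.le_rank
    omega)
  have h1 := hG.lift π σ
  have h2 : (fun x y => G (π x) (σ y)) = F := by
    funext x y
    rw [hGF _ (hπ x).1 _ (hσ y).1, (hπ x).2, (hσ y).2]
  rwa [h2] at h1

/-- `log₂` of the real rank of the communication matrix -/
noncomputable def lr (F : X → Y → Bool) : ℝ := Real.logb 2 ((mat F).rank : ℝ)

theorem rank_pos {F : X → Y → Bool} (h : ∃ x y, F x y = true) : 1 ≤ (mat F).rank := by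
  classical
  obtain ⟨x, y, hxy⟩ := h
  rw [Nat.one_le_iff_ne_zero]
  intro h0
  have h1 : (mat F).mulVecLin = 0 := by
    rw [← LinearMap.range_eq_bot, ← Submodule.finrank_eq_zero (R := ℝ)]
    exact h0
  have h2 := LinearMap.congr_fun h1 (Pi.single y 1)
  rw [Matrix.mulVecLin_apply, Matrix.mulVec_single_one, LinearMap.zero_apply] at h2
  have h3 := congrFun h2 x
  rw [Matrix.col_apply] at h3
  have h4 : mat F x y = 1 := by
    show bv (F x y) = 1
    rw [hxy]
    simp [bv]
  rw [h4] at h3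
  simp at h3

theorem bits_real {F : X → Y → Bool} {c : ℕ} (hc : 1 ≤ c) (hF : Rich F c)
    (hr : 1 ≤ (mat F).rank) :
    ∃ b : ℕ, Prot F b ∧ (b : ℝ) ≤ 2 * (lr F + 1) * (lr F + Real.logb 2 c + 3) + 2 := by
  set r := (mat F).rank with hrd
  set β := Nat.clog 2 (c * (2 * r + 1) + 1) with hβ
  have h1 : c * (2 * r + 1) < 2 ^ β := by
    have := Nat.le_pow_clog (b := 2) (by omega) (c * (2 * r + 1) + 1)
    rw [← hβ] at this
    omega
  refine ⟨_, bits hc hF h1, ?_⟩
  have hr1 : (1 : ℝ) ≤ r := by exact_mod_cast hr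
  have hc1 : (1 : ℝ) ≤ c := by exact_mod_cast hc
  have hL0 : 0 ≤ Real.logb 2 (r : ℝ) := Real.logb_nonneg (by norm_num) hr1
  have hC0 : 0 ≤ Real.logb 2 (c : ℝ) := Real.logb_nonneg (by norm_num) hc1
  have hph : (ph r : ℝ) ≤ Real.logb 2 (r : ℝ) + 1 := by
    unfold ph
    rw [if_neg (by omega)]
    push_cast
    have : ((Nat.log 2 r : ℕ) : ℝ) ≤ Real.logb 2 (r : ℝ) := by
      have h2 := Real.natLog_le_logb r 2
      exact_mod_cast h2
    linarith
  have hβr : (β : ℝ) ≤ Real.logb 2 (r : ℝ) + Real.logb 2 c + 3 := by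
    have hle : c * (2 * r + 1) + 1 ≤ 4 * (c * r) := by
      have h2 : c * (2 * r + 1) = 2 * (c * r) + c := by ring
      have h3 : c ≤ c * r := Nat.le_mul_of_pos_right _ hr
      have h4 : 1 ≤ c * r := Nat.mul_pos hc hr
      omega
    have h2 : β ≤ Nat.clog 2 (4 * (c * r)) := Nat.clog_mono_right 2 hle
    have h3 : (4 * (c * r)) ≤ 2 ^ β → True := fun _ => trivial
    have hpos : 1 < 4 * (c * r) := by
      have : 1 ≤ c * r := Nat.mul_pos hc hr
      omega
    have h4 : 2 ^ (Nat.clog 2 (4 * (c * r)) - 1) < 4 * (c * r) :=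
      Nat.pow_pred_clog_lt_self (by omega) hpos
    have h5 : 1 ≤ Nat.clog 2 (4 * (c * r)) := Nat.clog_pos (by omega) (by omega)
    have h6 : ((2 : ℝ) ^ (Nat.clog 2 (4 * (c * r)) - 1)) ≤ 4 * (c * r) := by exact_mod_cast h4.le
    have h7 := Real.logb_le_logb_of_le (b := 2) (by norm_num) (by positivity) h6
    rw [Real.logb_pow, Real.logb_self_eq_one (by norm_num), mul_one] at h7
    have h8 : Real.logb 2 (4 * ((c : ℝ) * r)) = 2 + (Real.logb 2 c + Real.logb 2 r) := by
      rw [Real.logb_mul (by norm_num) (by positivity), Real.logb_mul (by positivity) (by positivity)]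
      congr 1
      rw [show (4 : ℝ) = 2 ^ (2 : ℕ) by norm_num, Real.logb_pow, Real.logb_self_eq_one (by norm_num)]
      norm_num
    rw [h8] at h7
    have h9 : ((Nat.clog 2 (4 * (c * r)) - 1 : ℕ) : ℝ) = (Nat.clog 2 (4 * (c * r)) : ℝ) - 1 := by
      rw [Nat.cast_sub h5]
      simp
    rw [h9] at h7
    have h10 : (β : ℝ) ≤ (Nat.clog 2 (4 * (c * r)) : ℝ) := by exact_mod_cast h2
    linarith
  push_cast
  have e : lr F = Real.logb 2 (r : ℝ) := rfl
  rw [e]
  have hβ0 : (0 : ℝ) ≤ β := Nat.cast_nonneg _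
  have hph0 : (0 : ℝ) ≤ ph r := Nat.cast_nonneg _
  nlinarith [mul_le_mul hβr hph hph0 (by linarith : (0 : ℝ) ≤ Real.logb 2 (r : ℝ) + Real.logb 2 c + 3)]

/-- `F` is computed with `k` queries to functions of the class `𝒬`. -/
inductive Query {X Y : Type} (𝒬 : (X → Y → Bool) → Prop) : ℕ → (X → Y → Bool) → Prop
  | const (k : ℕ) (b : Bool) : Query 𝒬 k (fun _ _ => b)
  | ask (k : ℕ) (q F G : X → Y → Bool) (hq : 𝒬 q) (hF : Query 𝒬 k F) (hG : Query 𝒬 k G) :
      Query 𝒬 (k + 1) (fun x y => if q x y then F x y else G x y)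

theorem Rich.mono {F : X → Y → Bool} {c c' : ℕ} (h : Rich F c) (hc : c ≤ c') : Rich F c' := by
  intro A B hA hB
  obtain ⟨A', hA', B', hB', h1, h2, h3⟩ := h A B hA hB
  exact ⟨A', hA', B', hB', h1.trans (Nat.mul_le_mul_right _ hc),
    h2.trans (Nat.mul_le_mul_right _ hc), h3⟩

theorem rich_query {𝒬 : (X → Y → Bool) → Prop} {c : ℕ} (h𝒬 : ∀ q, 𝒬 q → Rich q c) (hc : 1 ≤ c)
    {k : ℕ} {F : X → Y → Bool} (h : Query 𝒬 k F) : Rich F (c ^ k) := by
  induction h with
  | const k b =>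
    intro A B _ _
    have h1 : 1 ≤ c ^ k := Nat.one_le_pow _ _ hc
    exact ⟨A, Subset.rfl, B, Subset.rfl, Nat.le_mul_of_pos_left _ h1,
      Nat.le_mul_of_pos_left _ h1, b, fun _ _ _ _ => rfl⟩
  | ask k q F G hq _ _ ihF ihG =>
    intro A B hA hB
    obtain ⟨A', hA', B', hB', h1, h2, b, hb⟩ := h𝒬 q hq A B hA hB
    have hA'n : A'.Nonempty := by
      rw [← card_pos]
      by_contra h0
      have : A'.card = 0 := by omega
      rw [this, mul_zero] at h1
      have := card_pos.2 hA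
      omega
    have hB'n : B'.Nonempty := by
      rw [← card_pos]
      by_contra h0
      have : B'.card = 0 := by omega
      rw [this, mul_zero] at h2
      have := card_pos.2 hB
      omega
    have key : ∀ H : X → Y → Bool, Rich H (c ^ k) →
        (∀ x ∈ A', ∀ y ∈ B', (if q x y then F x y else G x y) = H x y) →
        ∃ A'' ⊆ A, ∃ B'' ⊆ B, A.card ≤ c ^ (k + 1) * A''.card ∧ B.card ≤ c ^ (k + 1) * B''.card ∧
          ∃ b, ∀ x ∈ A'', ∀ y ∈ B'', (if q x y then F x y else G x y) = b := by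
      intro H hH hHF
      obtain ⟨A'', hA'', B'', hB'', h3, h4, b', hb'⟩ := hH A' B' hA'n hB'n
      refine ⟨A'', hA''.trans hA', B'', hB''.trans hB', ?_, ?_, b', fun x hx y hy => ?_⟩
      · calc A.card ≤ c * A'.card := h1
          _ ≤ c * (c ^ k * A''.card) := Nat.mul_le_mul_left _ h3
          _ = c ^ (k + 1) * A''.card := by ring
      · calc B.card ≤ c * B'.card := h2
          _ ≤ c * (c ^ k * B''.card) := Nat.mul_le_mul_left _ h4
          _ = c ^ (k + 1) * B''.card := by ring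
      · rw [hHF x (hA'' hx) y (hB'' hy)]
        exact hb' x hx y hy
    cases b with
    | true => exact key F ihF (fun x hx y hy => by rw [hb x hx y hy]; rfl)
    | false => exact key G ihG (fun x hx y hy => by rw [hb x hx y hy]; rfl)

/-- messages of one player -/
theorem rich_row (a : X → Bool) : Rich (fun (x : X) (_ : Y) => a x) 2 := by
  classical
  intro A B hA hB
  obtain ⟨A1, hA1⟩ : ∃ A1, A1 = A.filter (fun x => a x = true) := ⟨_, rfl⟩
  obtain ⟨A2, hA2⟩ : ∃ A2, A2 = A.filter (fun x => ¬ a x = true) := ⟨_, rfl⟩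
  have h : A1.card + A2.card = A.card := by
    rw [hA1, hA2]
    exact card_filter_add_card_filter_not (s := A) (fun x => a x = true)
  rcases Nat.lt_or_ge A1.card A2.card with h1 | h1
  · refine ⟨A2, by rw [hA2]; exact filter_subset _ _, B, Subset.rfl, by omega, by omega, false,
      fun x hx _ _ => ?_⟩
    rw [hA2] at hx
    exact Bool.eq_false_iff.2 (mem_filter.1 hx).2
  · refine ⟨A1, by rw [hA1]; exact filter_subset _ _, B, Subset.rfl, by omega, by omega, true,
      fun x hx _ _ => ?_⟩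
    rw [hA1] at hx
    exact (mem_filter.1 hx).2

theorem Rich.swap {F : X → Y → Bool} {c : ℕ} (h : Rich F c) : Rich (fun y x => F x y) c := by
  intro B A hB hA
  obtain ⟨A', hA', B', hB', h1, h2, b, hb⟩ := h A B hA hB
  exact ⟨B', hB', A', hA', h2, h1, b, fun y hy x hx => hb x hx y hy⟩

theorem rich_col (a : Y → Bool) : Rich (fun (_ : X) (y : Y) => a y) 2 :=
  (rich_row (X := Y) (Y := X) a).swap

/-- final form -/
theorem query_bits {𝒬 : (X → Y → Bool) → Prop} {c : ℕ} (h𝒬 : ∀ q, 𝒬 q → Rich q c) (hc : 1 ≤ c)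
    {k : ℕ} {F : X → Y → Bool} (h : Query 𝒬 k F) (hne : ∃ x y, F x y = true) :
    ∃ b : ℕ, Prot F b ∧ (b : ℝ) ≤ 2 * (lr F + 1) * (lr F + k * Real.logb 2 c + 3) + 2 := by
  obtain ⟨b, h1, h2⟩ := bits_real (Nat.one_le_pow k c hc) (rich_query h𝒬 hc h) (rank_pos hne)
  refine ⟨b, h1, ?_⟩
  rw [Nat.cast_pow, Real.logb_pow] at h2
  exact h2

end Pool.Agent.Y424.LR
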