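import Pool.Agent.Y424.LR.Sys

/-!
# From large constant rectangles in all submatrices to short protocols
-/

set_option autoImplicit false

namespace Pool.Agent.Y424.LR

open Finset
open Pool.Agent.TH744.LR (Prot)

set_option linter.unusedSectionVars false

variable {X Y : Type} [Fintype X] [Fintype Y]

/-- Every submatrix with rows `A` and columns `B` contains a constant rectangle with at least
`|A| / c` rows and `|B| / c` columns. -/
def Rich (F : X → Y → Bool) (c : ℕ) : Prop :=
  ∀ (A : Finset X) (B : Finset Y), A.Nonempty → B.Nonempty →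
    ∃ A' ⊆ A, ∃ B' ⊆ B, A.card ≤ c * A'.card ∧ B.card ≤ c * B'.card ∧
      ∃ b, ∀ x ∈ A', ∀ y ∈ B', F x y = b

/-- `F` has a protocol with `c` bits which is correct on `A × B`. -/
def PS (F : X → Y → Bool) (A : Finset X) (B : Finset Y) (c : ℕ) : Prop :=
  ∃ G : X → Y → Bool, Prot G c ∧ ∀ x ∈ A, ∀ y ∈ B, G x y = F x y

theorem not_sys_empty_left {F : X → Y → Bool} {k : ℕ} {A : Finset X} {B : Finset Y}
    (h : A = ∅) : ¬ Sys F (k + 1) A B := by
  intro hs
  exact (nonempty_iff_ne_empty.1 hs.nonempty.1) h

theorem not_sys_empty_right {F : X → Y → Bool} {k : ℕ} {A : Finset X} {B : Finset Y}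
    (h : B = ∅) : ¬ Sys F (k + 1) A B := by
  intro hs
  exact (nonempty_iff_ne_empty.1 hs.nonempty.2) h

/-- the rows and columns are removed one after the other -/
theorem peel {F : X → Y → Bool} {c : ℕ} (hF : Rich F c) (ρ : ℕ) : ∀ (K : ℕ)
    (A : Finset X) (B : Finset Y), (c - 1) ^ K * (A.card * B.card) < c ^ K → ¬ Sys F (ρ + 1) A B →
    ∃ (i : X → ℕ) (j : Y → ℕ), (∀ x, i x ≤ K) ∧ (∀ y, j y ≤ K) ∧
      (∀ t, ¬ Sys F (ρ / 2 + 1) (A.filter (fun x => i x = t)) (B.filter (fun y => t ≤ j y))) ∧
      (∀ t, ¬ Sys F (ρ / 2 + 1) (A.filter (fun x => t < i x)) (B.filter (fun y => j y = t))) := by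
  classical
  have triv : ∀ (K : ℕ) (A : Finset X) (B : Finset Y), A = ∅ ∨ B = ∅ →
      ∃ (i : X → ℕ) (j : Y → ℕ), (∀ x, i x ≤ K) ∧ (∀ y, j y ≤ K) ∧
      (∀ t, ¬ Sys F (ρ / 2 + 1) (A.filter (fun x => i x = t)) (B.filter (fun y => t ≤ j y))) ∧
      (∀ t, ¬ Sys F (ρ / 2 + 1) (A.filter (fun x => t < i x)) (B.filter (fun y => j y = t))) := by
    intro K A B h
    refine ⟨fun _ => 0, fun _ => 0, fun _ => Nat.zero_le _, fun _ => Nat.zero_le _, ?_, ?_⟩
    · intro t
      rcases h with h | h
      · exact not_sys_empty_left (by rw [h, filter_empty])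
      · exact not_sys_empty_right (by rw [h, filter_empty])
    · intro t
      rcases h with h | h
      · exact not_sys_empty_left (by rw [h, filter_empty])
      · exact not_sys_empty_right (by rw [h, filter_empty])
  intro K
  induction K with
  | zero =>
    intro A B hAB _
    rw [pow_zero, pow_zero, one_mul] at hAB
    apply triv
    have h0 : A.card * B.card = 0 := by omega
    rcases Nat.mul_eq_zero.1 h0 with h | h
    · exact Or.inl (card_eq_zero.1 h)
    · exact Or.inr (card_eq_zero.1 h)
  | succ K ih =>
    intro A B hAB hS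
    rcases A.eq_empty_or_nonempty with hA | hA
    · exact triv _ _ _ (Or.inl hA)
    rcases B.eq_empty_or_nonempty with hB | hB
    · exact triv _ _ _ (Or.inr hB)
    obtain ⟨A', hA', B', hB', hcA, hcB, b, hb⟩ := hF A B hA hB
    have hc0 : 0 < c := by
      rcases Nat.eq_zero_or_pos c with h | h
      · rw [h, zero_mul] at hcA
        have := card_pos.2 hA
        omega
      · exact h
    -- the new size
    have hsz : ∀ m n : ℕ, ∀ P : ℕ, c * m ≤ (c - 1) * n → (c - 1) ^ (K + 1) * (n * P) < c ^ (K + 1) →
        (c - 1) ^ K * (m * P) < c ^ K := by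
      intro m n P hmn hnP
      have h1 : c * ((c - 1) ^ K * (m * P)) < c * c ^ K := by
        calc c * ((c - 1) ^ K * (m * P)) = (c - 1) ^ K * P * (c * m) := by ring
          _ ≤ (c - 1) ^ K * P * ((c - 1) * n) := Nat.mul_le_mul_left _ hmn
          _ = (c - 1) ^ (K + 1) * (n * P) := by ring
          _ < c ^ (K + 1) := hnP
          _ = c * c ^ K := by ring
      exact Nat.lt_of_mul_lt_mul_left h1
    have hsub : ∀ (n m : ℕ), m ≤ n → n ≤ c * m → c * (n - m) ≤ (c - 1) * n := by
      intro n m hmn h
      obtain ⟨e, rfl⟩ : ∃ e, c = e + 1 := ⟨c - 1, by omega⟩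
      obtain ⟨f, rfl⟩ : ∃ f, n = m + f := ⟨n - m, by omega⟩
      have e1 : m + f - m = f := by omega
      rw [e1, Nat.add_sub_cancel]
      have e2 : (e + 1) * f = e * f + f := by ring
      have e3 : (e + 1) * m = e * m + m := by ring
      have e4 : e * (m + f) = e * m + e * f := by ring
      omega
    have hor : ¬ (Sys F (ρ / 2 + 1) A' B ∧ Sys F (ρ / 2 + 1) A B') := by
      rintro ⟨h1, h2⟩
      exact hS ((Sys.add hb hA' hB' h1 h2).mono_k (by omega))
    by_cases h1 : Sys F (ρ / 2 + 1) A' B
    · -- remove the columns of `B'`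
      have h2 : ¬ Sys F (ρ / 2 + 1) A B' := fun h => hor ⟨h1, h⟩
      obtain ⟨i, j, hi, hj, hij, hji⟩ := ih A (B \ B') (by
          have := hsz (B \ B').card B.card A.card (by
            rw [card_sdiff_of_subset hB']
            exact hsub _ _ (card_le_card hB') hcB) (by rwa [mul_comm B.card])
          rwa [mul_comm A.card]) (fun h => hS (h.mono Subset.rfl sdiff_subset))
      refine ⟨fun x => i x + 1, fun y => if y ∈ B' then 0 else j y + 1, fun x =>
          Nat.succ_le_succ (hi x), fun y => ?_, fun t => ?_, fun t => ?_⟩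
      · simp only
        split_ifs
        · omega
        · have := hj y
          omega
      · rcases t with _ | t
        · apply not_sys_empty_left
          rw [filter_eq_empty_iff]
          intro x _
          exact Nat.succ_ne_zero _
        · intro h
          apply hij t
          refine h.mono ?_ ?_
          · intro x hx
            simp only [mem_filter] at hx ⊢
            exact ⟨hx.1, by omega⟩
          · intro y hy
            simp only [mem_filter] at hy ⊢
            by_cases hyB : y ∈ B'
            · rw [if_pos hyB] at hy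
              omega
            · rw [if_neg hyB] at hy
              exact ⟨mem_sdiff.2 ⟨hy.1, hyB⟩, by omega⟩
      · rcases t with _ | t
        · intro h
          apply h2
          refine h.mono (filter_subset _ _) ?_
          intro y hy
          simp only [mem_filter] at hy
          by_contra hyB
          rw [if_neg hyB] at hy
          omega
        · intro h
          apply hji t
          refine h.mono ?_ ?_
          · intro x hx
            simp only [mem_filter] at hx ⊢
            exact ⟨hx.1, by omega⟩
          · intro y hy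
            simp only [mem_filter] at hy ⊢
            by_cases hyB : y ∈ B'
            · rw [if_pos hyB] at hy
              omega
            · rw [if_neg hyB] at hy
              exact ⟨mem_sdiff.2 ⟨hy.1, hyB⟩, by omega⟩
    · -- remove the rows of `A'`
      obtain ⟨i, j, hi, hj, hij, hji⟩ := ih (A \ A') B (hsz (A \ A').card A.card B.card (by
            rw [card_sdiff_of_subset hA']
            exact hsub _ _ (card_le_card hA') hcA) hAB)
          (fun h => hS (h.mono sdiff_subset Subset.rfl))
      refine ⟨fun x => if x ∈ A' then 0 else i x + 1, fun y => j y + 1, fun x => ?_, fun y =>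
          Nat.succ_le_succ (hj y), fun t => ?_, fun t => ?_⟩
      · simp only
        split_ifs
        · omega
        · have := hi x
          omega
      · rcases t with _ | t
        · intro h
          apply h1
          refine h.mono ?_ (filter_subset _ _)
          intro x hx
          simp only [mem_filter] at hx
          by_contra hxA
          rw [if_neg hxA] at hx
          omega
        · intro h
          apply hij t
          refine h.mono ?_ ?_
          · intro x hx
            simp only [mem_filter] at hx ⊢
            by_cases hxA : x ∈ A'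
            · rw [if_pos hxA] at hx
              omega
            · rw [if_neg hxA] at hx
              exact ⟨mem_sdiff.2 ⟨hx.1, hxA⟩, by omega⟩
          · intro y hy
            simp only [mem_filter] at hy ⊢
            exact ⟨hy.1, by omega⟩
      · rcases t with _ | t
        · apply not_sys_empty_right
          rw [filter_eq_empty_iff]
          intro x _
          exact Nat.succ_ne_zero _
        · intro h
          apply hji t
          refine h.mono ?_ ?_
          · intro x hx
            simp only [mem_filter] at hx ⊢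
            by_cases hxA : x ∈ A'
            · rw [if_pos hxA] at hx
              omega
            · rw [if_neg hxA] at hx
              exact ⟨mem_sdiff.2 ⟨hx.1, hxA⟩, by omega⟩
          · intro y hy
            simp only [mem_filter] at hy ⊢
            exact ⟨hy.1, by omega⟩

/-- Alice announces a number. -/
theorem announceA (β : ℕ) : ∀ (i : X → ℕ) (_ : ∀ x, i x < 2 ^ β) (H : ℕ → X → Y → Bool) (c : ℕ)
    (_ : ∀ t, Prot (H t) c), Prot (fun x y => H (i x) x y) (β + c) := by
  induction β with
  | zero =>
    intro i hi H c hH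
    have : (fun x y => H (i x) x y) = H 0 := by
      funext x y
      have := hi x
      rw [pow_zero] at this
      have e : i x = 0 := by omega
      rw [e]
    rw [this, zero_add]
    exact hH 0
  | succ β ih =>
    intro i hi H c hH
    have h1 : ∀ v : Bool, Prot (fun x y => H ((i x % 2 ^ β) + (if v then 2 ^ β else 0)) x y)
        (β + c) := fun v => ih (fun x => i x % 2 ^ β) (fun x => Nat.mod_lt _ (by positivity))
          (fun t => H (t + (if v then 2 ^ β else 0))) c (fun t => hH _)
    have h2 := Prot.bind (Prot.alice (Y := Y) (fun x : X => decide (2 ^ β ≤ i x)))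
      (F := fun v x y => H ((i x % 2 ^ β) + (if v then 2 ^ β else 0)) x y) h1
    have e1 : (fun x y => H ((i x % 2 ^ β) + (if decide (2 ^ β ≤ i x) then 2 ^ β else 0)) x y) =
        fun x y => H (i x) x y := by
      funext x y
      congr 1
      have hx := hi x
      rw [pow_succ] at hx
      by_cases h : 2 ^ β ≤ i x
      · rw [decide_eq_true h, if_pos rfl, Nat.mod_eq_sub_mod h, Nat.mod_eq_of_lt (by omega)]
        omega
      · rw [decide_eq_false h, if_neg (by simp), Nat.mod_eq_of_lt (by omega)]
        omega
    rw [e1] at h2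
    rwa [show 1 + (β + c) = β + 1 + c by ring] at h2

/-- Bob announces a number. -/
theorem announceB (β : ℕ) (j : Y → ℕ) (hj : ∀ y, j y < 2 ^ β) (H : ℕ → X → Y → Bool) (c : ℕ)
    (hH : ∀ t, Prot (H t) c) : Prot (fun x y => H (j y) x y) (β + c) :=
  Prot.swap (announceA (X := Y) (Y := X) β j hj (fun t y x => H t x y) c (fun t => (hH t).swap))

theorem base {F : X → Y → Bool} {A : Finset X} {B : Finset Y} (h : ¬ Sys F 1 A B) :
    PS F A B 2 := by
  classical
  rcases A.eq_empty_or_nonempty with hA | ⟨x0, hx0⟩
  · exact ⟨fun _ _ => true, (Prot.const true).mono (by omega), fun x hx => by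
      rw [hA] at hx
      exact absurd hx (notMem_empty _)⟩
  rcases B.eq_empty_or_nonempty with hB | ⟨y0, hy0⟩
  · exact ⟨fun _ _ => true, (Prot.const true).mono (by omega), fun x _ y hy => by
      rw [hB] at hy
      exact absurd hy (notMem_empty _)⟩
  have h1 := Prot.bind (Prot.alice (Y := Y) (fun x : X => F x y0))
    (F := fun v _ y => decide (bv v + bv (F x0 y) - bv (F x0 y0) = 1)) (b := 1)
    (fun v => Prot.bob (fun y => decide (bv v + bv (F x0 y) - bv (F x0 y0) = 1)))
  refine ⟨_, h1, fun x hx y hy => ?_⟩
  have h2 := second_diff h hx hx0 hy hy0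
  have h3 : bv (F x y0) + bv (F x0 y) - bv (F x0 y0) = bv (F x y) := by linarith
  simp only [h3]
  cases F x y <;> simp [bv]

/-- number of phases -/
def ph (ρ : ℕ) : ℕ := if ρ = 0 then 0 else Nat.log 2 ρ + 1

theorem ph_half {ρ : ℕ} (h : ρ ≠ 0) : ph ρ = ph (ρ / 2) + 1 := by
  unfold ph
  rw [if_neg h]
  rcases Nat.lt_or_ge ρ 2 with h1 | h1
  · have : ρ = 1 := by omega
    subst this
    simp
  · rw [if_neg (by omega), Nat.log_of_one_lt_of_le (by omega) h1]

/-- **Large constant rectangles give short protocols** (Nisan and Wigderson). -/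
theorem protocol {F : X → Y → Bool} {c : ℕ} (hF : Rich F c) {K β : ℕ} (hK : K < 2 ^ β) :
    ∀ (ρ : ℕ) (A : Finset X) (B : Finset Y), (c - 1) ^ K * (A.card * B.card) < c ^ K →
      ¬ Sys F (ρ + 1) A B → PS F A B (2 * β * ph ρ + 2) := by
  classical
  intro ρ
  induction ρ using Nat.strong_induction_on with
  | _ ρ ih =>
    intro A B hAB hS
    rcases Nat.eq_zero_or_pos ρ with h0 | hpos
    · subst h0
      have : ph 0 = 0 := rfl
      rw [this, mul_zero]
      exact base hS
    obtain ⟨i, j, hi, hj, hij, hji⟩ := peel hF ρ K A B hAB hS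
    have hle : ∀ (A' : Finset X) (B' : Finset Y), A' ⊆ A → B' ⊆ B →
        (c - 1) ^ K * (A'.card * B'.card) < c ^ K := fun A' B' h1 h2 =>
      lt_of_le_of_lt (Nat.mul_le_mul_left _ (Nat.mul_le_mul (card_le_card h1) (card_le_card h2))) hAB
    have g1 : ∀ t, PS F (A.filter (fun x => i x = t)) (B.filter (fun y => t ≤ j y))
        (2 * β * ph (ρ / 2) + 2) := fun t =>
      ih (ρ / 2) (by omega) _ _ (hle _ _ (filter_subset _ _) (filter_subset _ _)) (hij t)
    have g2 : ∀ t, PS F (A.filter (fun x => t < i x)) (B.filter (fun y => j y = t))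
        (2 * β * ph (ρ / 2) + 2) := fun t =>
      ih (ρ / 2) (by omega) _ _ (hle _ _ (filter_subset _ _) (filter_subset _ _)) (hji t)
    choose G1 hG1 hG1' using g1
    choose G2 hG2 hG2' using g2
    have hP := announceA (Y := Y) β i (fun x => lt_of_le_of_lt (hi x) hK)
      (fun t x y => if t ≤ j y then G1 t x y else G2 (j y) x y) (β + (2 * β * ph (ρ / 2) + 2))
      (fun t => announceB (X := X) β j (fun y => lt_of_le_of_lt (hj y) hK)
        (fun s x y => if t ≤ s then G1 t x y else G2 s x y) (2 * β * ph (ρ / 2) + 2)
        (fun s => by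
          by_cases hts : t ≤ s
          · simp only [hts, if_true]
            exact hG1 t
          · simp only [hts, if_false]
            exact hG2 s))
    have hcost : β + (β + (2 * β * ph (ρ / 2) + 2)) = 2 * β * ph ρ + 2 := by
      rw [ph_half (by omega : ρ ≠ 0)]
      ring
    rw [hcost] at hP
    refine ⟨_, hP, fun x hx y hy => ?_⟩
    by_cases h : i x ≤ j y
    · rw [if_pos h]
      exact hG1' _ x (mem_filter.2 ⟨hx, rfl⟩) y (mem_filter.2 ⟨hy, h⟩)
    · rw [if_neg h]
      exact hG2' _ x (mem_filter.2 ⟨hx, not_le.1 h⟩) y (mem_filter.2 ⟨hy, rfl⟩)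

end Pool.Agent.Y424.LR
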