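import Pool.Agent.TH744.LR.Prot

/-!
# Dual systems: a rank for matrices modulo functions of one argument

`Sys F k A B`: there are `k` functions `u i` with support in `A` and sum zero, and `k` functions
`v j` with support in `B` and sum zero such that `∑ u i x * v j y * F x y` is `1` for `i = j` and
`0` otherwise. The largest `k` is the rank of the matrix `F` on `A × B` modulo the functions
`f x + g y`.
-/

set_option autoImplicit false

namespace Pool.Agent.Y424.LR

open Finset

/-- the real value of a bit -/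
noncomputable def bv (b : Bool) : ℝ := if b then 1 else 0

variable {X Y : Type} [Fintype X] [Fintype Y]

/-- the bilinear form of the matrix `F` -/
noncomputable def bil (F : X → Y → Bool) (u : X → ℝ) (v : Y → ℝ) : ℝ :=
  ∑ x, u x * ∑ y, v y * bv (F x y)

/-- support in `A` and sum zero -/
def Sup {Z : Type} [Fintype Z] (A : Finset Z) (u : Z → ℝ) : Prop :=
  (∀ x, x ∉ A → u x = 0) ∧ ∑ x, u x = 0

/-- a dual system with index set `ι` -/
def SysI (ι : Type) (F : X → Y → Bool) (A : Finset X) (B : Finset Y) : Prop :=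
  ∃ (u : ι → X → ℝ) (v : ι → Y → ℝ), (∀ i, Sup A (u i)) ∧ (∀ j, Sup B (v j)) ∧
    (∀ i, bil F (u i) (v i) = 1) ∧ ∀ i j, i ≠ j → bil F (u i) (v j) = 0

/-- a dual system with `k` members -/
def Sys (F : X → Y → Bool) (k : ℕ) (A : Finset X) (B : Finset Y) : Prop := SysI (Fin k) F A B

theorem SysI.of_inj {ι κ : Type} {F : X → Y → Bool} {A : Finset X} {B : Finset Y}
    (f : κ → ι) (hf : Function.Injective f) (h : SysI ι F A B) : SysI κ F A B := by
  obtain ⟨u, v, h1, h2, h3, h4⟩ := h
  exact ⟨fun i => u (f i), fun j => v (f j), fun i => h1 _, fun j => h2 _, fun i => h3 _,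
    fun i j hij => h4 _ _ (fun h => hij (hf h))⟩

theorem Sys.mono_k {F : X → Y → Bool} {k k' : ℕ} {A : Finset X} {B : Finset Y} (h : Sys F k A B)
    (hk : k' ≤ k) : Sys F k' A B :=
  SysI.of_inj (Fin.castLE hk) (Fin.castLE_injective hk) h

theorem Sup.mono {Z : Type} [Fintype Z] {A A' : Finset Z} {u : Z → ℝ} (h : Sup A u)
    (hA : A ⊆ A') : Sup A' u :=
  ⟨fun x hx => h.1 x (fun hx' => hx (hA hx')), h.2⟩

theorem Sys.mono {F : X → Y → Bool} {k : ℕ} {A A' : Finset X} {B B' : Finset Y}
    (h : Sys F k A B) (hA : A ⊆ A') (hB : B ⊆ B') : Sys F k A' B' := by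
  obtain ⟨u, v, h1, h2, h3, h4⟩ := h
  exact ⟨u, v, fun i => (h1 i).mono hA, fun j => (h2 j).mono hB, h3, h4⟩

theorem Sys.nonempty {F : X → Y → Bool} {k : ℕ} {A : Finset X} {B : Finset Y}
    (h : Sys F (k + 1) A B) : A.Nonempty ∧ B.Nonempty := by
  obtain ⟨u, v, h1, h2, h3, h4⟩ := h
  constructor
  · rw [nonempty_iff_ne_empty]
    rintro rfl
    have : bil F (u 0) (v 0) = 0 := by
      unfold bil
      refine sum_eq_zero fun x _ => ?_
      rw [(h1 0).1 x (by simp), zero_mul]
    rw [h3 0] at this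
    exact one_ne_zero this
  · rw [nonempty_iff_ne_empty]
    rintro rfl
    have : bil F (u 0) (v 0) = 0 := by
      unfold bil
      refine sum_eq_zero fun x _ => ?_
      rw [sum_eq_zero fun y _ => by rw [(h2 0).1 y (by simp), zero_mul], mul_zero]
    rw [h3 0] at this
    exact one_ne_zero this

theorem bil_sub_sum {κ : Type} [Fintype κ] (F : X → Y → Bool) (u : X → ℝ) (c : κ → ℝ)
    (w : κ → X → ℝ) (v : Y → ℝ) :
    bil F (fun x => u x - ∑ k, c k * w k x) v = bil F u v - ∑ k, c k * bil F (w k) v := by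
  unfold bil
  simp_rw [sub_mul, Finset.sum_sub_distrib, Finset.sum_mul, Finset.mul_sum]
  congr 1
  rw [Finset.sum_comm]
  refine Finset.sum_congr rfl fun k _ => Finset.sum_congr rfl fun x _ =>
    Finset.sum_congr rfl fun y _ => by ring

theorem Sup.sub_sum {κ : Type} [Fintype κ] {A : Finset X} {u : X → ℝ} (c : κ → ℝ)
    {w : κ → X → ℝ} (hu : Sup A u) (hw : ∀ k, Sup A (w k)) :
    Sup A (fun x => u x - ∑ k, c k * w k x) := by
  constructor
  · intro x hx
    simp only
    rw [hu.1 x hx, sum_eq_zero fun k _ => by rw [(hw k).1 x hx, mul_zero], sub_zero]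
  · rw [Finset.sum_sub_distrib, hu.2, Finset.sum_comm, zero_sub, neg_eq_zero]
    refine sum_eq_zero fun k _ => ?_
    rw [← Finset.mul_sum, (hw k).2, mul_zero]

/-- a constant rectangle does not contribute -/
theorem bil_const {F : X → Y → Bool} {A : Finset X} {B : Finset Y} {b : Bool}
    (hc : ∀ x ∈ A, ∀ y ∈ B, F x y = b) {u : X → ℝ} {v : Y → ℝ} (hu : Sup A u) (hv : Sup B v) :
    bil F u v = 0 := by
  unfold bil
  have h1 : ∀ x ∈ A, ∑ y, v y * bv (F x y) = 0 := by
    intro x hx
    have : ∀ y, v y * bv (F x y) = v y * bv b := by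
      intro y
      by_cases hy : y ∈ B
      · rw [hc x hx y hy]
      · rw [hv.1 y hy, zero_mul, zero_mul]
    rw [Finset.sum_congr rfl fun y _ => this y, ← Finset.sum_mul, hv.2, zero_mul]
  refine sum_eq_zero fun x _ => ?_
  by_cases hx : x ∈ A
  · rw [h1 x hx, mul_zero]
  · rw [hu.1 x hx, zero_mul]

/-- ranks of the two strips of a constant rectangle add up -/
theorem Sys.add {F : X → Y → Bool} {p q : ℕ} {A X' : Finset X} {B Y' : Finset Y} {b : Bool}
    (hc : ∀ x ∈ A, ∀ y ∈ B, F x y = b) (hA : A ⊆ X') (hB : B ⊆ Y')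
    (h1 : Sys F p A Y') (h2 : Sys F q X' B) : Sys F (p + q) X' Y' := by
  obtain ⟨u, v, hu, hv, huv, huv'⟩ := h1
  obtain ⟨s, t, hs, ht, hst, hst'⟩ := h2
  have h0 : ∀ i j, bil F (u i) (t j) = 0 := fun i j => bil_const hc (hu i) (ht j)
  have key : SysI (Fin p ⊕ Fin q) F X' Y' := by
    refine ⟨Sum.elim u (fun i x => s i x - ∑ k, bil F (s i) (v k) * u k x), Sum.elim v t,
      ?_, ?_, ?_, ?_⟩
    · rintro (i | i)
      · exact (hu i).mono hA
      · exact (hs i).sub_sum _ (fun k => (hu k).mono hA)
    · rintro (j | j)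
      · exact hv j
      · exact (ht j).mono hB
    · rintro (i | i)
      · exact huv i
      · simp only [Sum.elim_inr]
        rw [bil_sub_sum, hst i, sum_eq_zero fun k _ => by rw [h0, mul_zero], sub_zero]
    · rintro (i | i) (j | j) hij
      · exact huv' i j (fun h => hij (by rw [h]))
      · exact h0 i j
      · simp only [Sum.elim_inr, Sum.elim_inl]
        rw [bil_sub_sum, Finset.sum_eq_single j, huv j, mul_one, sub_self]
        · intro k _ hk
          rw [huv' k j hk, mul_zero]
        · intro h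
          exact absurd (mem_univ _) h
      · simp only [Sum.elim_inr]
        rw [bil_sub_sum, hst' i j (fun h => hij (by rw [h])),
          sum_eq_zero fun k _ => by rw [h0, mul_zero], sub_zero]
  exact SysI.of_inj _ finSumFinEquiv.symm.injective key

/-- the real matrix of `F` -/
noncomputable def mat (F : X → Y → Bool) : Matrix X Y ℝ := Matrix.of (fun x y => bv (F x y))

theorem Sys.le_rank {F : X → Y → Bool} {k : ℕ} {A : Finset X} {B : Finset Y} (h : Sys F k A B) :
    k ≤ (mat F).rank := by
  classical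
  obtain ⟨u, v, h1, h2, h3, h4⟩ := h
  have key : (Matrix.of u) * (mat F * (Matrix.of v).transpose) = (1 : Matrix (Fin k) (Fin k) ℝ) := by
    ext i j
    rw [Matrix.mul_apply]
    have e : ∑ x, Matrix.of u i x * (mat F * (Matrix.of v).transpose) x j = bil F (u i) (v j) := by
      unfold bil
      refine sum_congr rfl fun x _ => ?_
      rw [Matrix.mul_apply, Matrix.of_apply]
      congr 1
      refine sum_congr rfl fun y _ => ?_
      rw [Matrix.transpose_apply, Matrix.of_apply, mat, Matrix.of_apply]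
      ring
    rw [e]
    by_cases hij : i = j
    · subst hij
      rw [h3, Matrix.one_apply_eq]
    · rw [h4 i j hij, Matrix.one_apply_ne hij]
  have e1 : (1 : Matrix (Fin k) (Fin k) ℝ).rank = k := by
    rw [Matrix.rank_one, Fintype.card_fin]
  rw [← e1, ← key]
  exact (Matrix.rank_mul_le_right _ _).trans (Matrix.rank_mul_le_left _ _)

/-- rank zero -/
theorem second_diff {F : X → Y → Bool} {A : Finset X} {B : Finset Y} (h : ¬ Sys F 1 A B)
    {x x' : X} {y y' : Y} (hx : x ∈ A) (hx' : x' ∈ A) (hy : y ∈ B) (hy' : y' ∈ B) :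
    bv (F x y) - bv (F x' y) - bv (F x y') + bv (F x' y') = 0 := by
  classical
  by_contra hne
  apply h
  set s := bv (F x y) - bv (F x' y) - bv (F x y') + bv (F x' y') with hs
  refine ⟨fun _ z => (if z = x then 1 else 0) - (if z = x' then 1 else 0),
    fun _ z => s⁻¹ * ((if z = y then 1 else 0) - (if z = y' then 1 else 0)), ?_, ?_, ?_, ?_⟩
  · intro _
    constructor
    · intro z hz
      have h1 : z ≠ x := fun h => hz (h ▸ hx)
      have h2 : z ≠ x' := fun h => hz (h ▸ hx')
      simp [h1, h2]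
    · rw [sum_sub_distrib]
      simp
  · intro _
    constructor
    · intro z hz
      have h1 : z ≠ y := fun h => hz (h ▸ hy)
      have h2 : z ≠ y' := fun h => hz (h ▸ hy')
      simp [h1, h2]
    · rw [← mul_sum, sum_sub_distrib]
      simp
  · intro _
    unfold bil
    have e1 : ∀ z, ∑ w, s⁻¹ * ((if w = y then (1 : ℝ) else 0) - (if w = y' then 1 else 0)) * bv (F z w)
        = s⁻¹ * (bv (F z y) - bv (F z y')) := by
      intro z
      simp_rw [mul_assoc, ← mul_sum, sub_mul, sum_sub_distrib, ite_mul, one_mul, zero_mul]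
      simp
    simp_rw [e1, sub_mul, sum_sub_distrib, ite_mul, one_mul, zero_mul]
    simp only [sum_ite_eq', mem_univ, if_true]
    rw [← mul_sub]
    have : bv (F x y) - bv (F x y') - (bv (F x' y) - bv (F x' y')) = s := by rw [hs]; ring
    rw [this, inv_mul_cancel₀ hne]
  · intro i j hij
    exact absurd (Subsingleton.elim i j) hij

end Pool.Agent.Y424.LR
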