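import Pool.Agent.Y424.LR.Main

/-!
# Matrices of small twin-width have large constant rectangles in all submatrices
-/

set_option autoImplicit false
set_option linter.unusedSectionVars false

namespace Pool.Agent.Y424.LR

open Finset

variable {X Y : Type} [Fintype X] [Fintype Y]

/-- The block of the row part `i` and the column part `j` is not constant. -/
def Mixed (F : X → Y → Bool) (p : X → ℕ) (q : Y → ℕ) (i j : ℕ) : Prop :=
  ∃ x x' y y', p x = i ∧ p x' = i ∧ q y = j ∧ q y' = j ∧ F x y ≠ F x' y'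

/-- The partition `p'` arises from the partition `p` by merging two parts. -/
def Merge {Z : Type} (p p' : Z → ℕ) : Prop := ∃ a b, ∀ z, p' z = if p z = b then a else p z

/-- The matrix `F` has twin-width at most `d`: there is a sequence of partitions `p t` of the rows
and `q t` of the columns (given by labels), which starts with singletons, ends with one part on
each side, merges two row parts or two column parts in each step, and at each time every row part
has at most `d` column parts with which it forms a non-constant block, and vice versa. -/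
def TwinWidthLE (F : X → Y → Bool) (d : ℕ) : Prop :=
  ∃ (T : ℕ) (p : ℕ → X → ℕ) (q : ℕ → Y → ℕ),
    Function.Injective (p 0) ∧ Function.Injective (q 0) ∧
    (∀ x x', p T x = p T x') ∧ (∀ y y', q T y = q T y') ∧
    (∀ t < T, (Merge (p t) (p (t + 1)) ∧ q (t + 1) = q t) ∨
      (p (t + 1) = p t ∧ Merge (q t) (q (t + 1)))) ∧
    ∀ t ≤ T,
      (∀ i, ∃ S : Finset ℕ, S.card ≤ d ∧ ∀ j, Mixed F (p t) (q t) i j → j ∈ S) ∧
      (∀ j, ∃ S : Finset ℕ, S.card ≤ d ∧ ∀ i, Mixed F (p t) (q t) i j → i ∈ S)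

/-- one heavy row part and light column parts -/
theorem light {F : X → Y → Bool} {d : ℕ} {p : X → ℕ} {q : Y → ℕ} {i : ℕ} {S : Finset ℕ}
    (hS : S.card ≤ d) (hm : ∀ j, Mixed F p q i j → j ∈ S) {A : Finset X} {B : Finset Y}
    (hA : A.Nonempty)
    (hh : A.card ≤ 4 * (d + 1) * (A.filter (fun x => p x = i)).card)
    (hl : ∀ j, 4 * (d + 1) * (B.filter (fun y => q y = j)).card ≤ B.card) :
    ∃ A' ⊆ A, ∃ B' ⊆ B, A.card ≤ 4 * (d + 1) * A'.card ∧ B.card ≤ 4 * (d + 1) * B'.card ∧
      ∃ b, ∀ x ∈ A', ∀ y ∈ B', F x y = b := by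
  classical
  obtain ⟨A', hA'⟩ : ∃ A', A' = A.filter (fun x => p x = i) := ⟨_, rfl⟩
  rw [← hA'] at hh
  have hne : A'.Nonempty := by
    rw [← card_pos]
    rcases Nat.eq_zero_or_pos A'.card with h0 | h0
    · rw [h0, mul_zero] at hh
      have := card_pos.2 hA
      omega
    · exact h0
  obtain ⟨x0, hx0⟩ := hne
  -- the columns in mixed blocks
  obtain ⟨B1, hB1⟩ : ∃ B1, B1 = B.filter (fun y => q y ∈ S) := ⟨_, rfl⟩
  obtain ⟨B2, hB2⟩ : ∃ B2, B2 = B.filter (fun y => ¬ q y ∈ S) := ⟨_, rfl⟩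
  have h12 : B1.card + B2.card = B.card := by
    rw [hB1, hB2]
    exact card_filter_add_card_filter_not (s := B) (fun y => q y ∈ S)
  have hB1c : 4 * (d + 1) * B1.card ≤ d * B.card := by
    have h1 : B1.card ≤ ∑ j ∈ S, (B.filter (fun y => q y = j)).card := by
      have : B1 ⊆ S.biUnion (fun j => B.filter (fun y => q y = j)) := by
        intro y hy
        rw [hB1] at hy
        have hy' := mem_filter.1 hy
        exact mem_biUnion.2 ⟨q y, hy'.2, mem_filter.2 ⟨hy'.1, rfl⟩⟩
      exact (card_le_card this).trans card_biUnion_le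
    calc 4 * (d + 1) * B1.card ≤ 4 * (d + 1) * ∑ j ∈ S, (B.filter (fun y => q y = j)).card :=
          Nat.mul_le_mul_left _ h1
      _ = ∑ j ∈ S, 4 * (d + 1) * (B.filter (fun y => q y = j)).card := by rw [mul_sum]
      _ ≤ ∑ _j ∈ S, B.card := sum_le_sum fun j _ => hl j
      _ = S.card * B.card := by rw [sum_const, smul_eq_mul]
      _ ≤ d * B.card := Nat.mul_le_mul_right _ hS
  have hB1d : 4 * B1.card ≤ B.card := by
    rcases Nat.lt_or_ge B.card (4 * B1.card) with h | h
    · exfalso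
      have h3 : (d + 1) * (B.card + 1) ≤ (d + 1) * (4 * B1.card) := Nat.mul_le_mul_left _ h
      have h4 : (d + 1) * (4 * B1.card) = 4 * (d + 1) * B1.card := by ring
      have h5 : (d + 1) * (B.card + 1) = d * B.card + B.card + (d + 1) := by ring
      omega
    · exact h
  -- the majority
  obtain ⟨C1, hC1⟩ : ∃ C1, C1 = B2.filter (fun y => F x0 y = true) := ⟨_, rfl⟩
  obtain ⟨C2, hC2⟩ : ∃ C2, C2 = B2.filter (fun y => ¬ F x0 y = true) := ⟨_, rfl⟩
  have hc12 : C1.card + C2.card = B2.card := by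
    rw [hC1, hC2]
    exact card_filter_add_card_filter_not (s := B2) (fun y => F x0 y = true)
  have hsame : ∀ x ∈ A', ∀ y ∈ B2, F x y = F x0 y := by
    intro x hx y hy
    rw [hA'] at hx hx0
    rw [hB2] at hy
    by_contra hne
    exact (mem_filter.1 hy).2 (hm _ ⟨x, x0, y, y, (mem_filter.1 hx).2, (mem_filter.1 hx0).2, rfl,
      rfl, hne⟩)
  have hAA : A' ⊆ A := by
    rw [hA']
    exact filter_subset _ _
  have hBB : B2 ⊆ B := by
    rw [hB2]
    exact filter_subset _ _
  have hsz : ∀ m : ℕ, B.card ≤ 4 * m → B.card ≤ 4 * (d + 1) * m := by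
    intro m h
    refine h.trans ?_
    have : 4 * (d + 1) * m = 4 * m + d * (4 * m) := by ring
    omega
  rcases Nat.lt_or_ge C1.card C2.card with h1 | h1
  · refine ⟨A', hAA, C2, ?_, hh, hsz _ (by omega), false, fun x hx y hy => ?_⟩
    · rw [hC2]
      exact (filter_subset _ _).trans hBB
    · rw [hC2] at hy
      have hy' := mem_filter.1 hy
      rw [hsame x hx y hy'.1]
      exact Bool.eq_false_iff.2 hy'.2
  · refine ⟨A', hAA, C1, ?_, hh, hsz _ (by omega), true, fun x hx y hy => ?_⟩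
    · rw [hC1]
      exact (filter_subset _ _).trans hBB
    · rw [hC1] at hy
      have hy' := mem_filter.1 hy
      rw [hsame x hx y hy'.1]
      exact hy'.2

theorem Mixed.swap {F : X → Y → Bool} {p : X → ℕ} {q : Y → ℕ} {i j : ℕ}
    (h : Mixed (fun y x => F x y) q p j i) : Mixed F p q i j := by
  obtain ⟨y, y', x, x', h1, h2, h3, h4, h5⟩ := h
  exact ⟨x, x', y, y', h3, h4, h1, h2, h5⟩

/-- singletons -/
theorem single {F : X → Y → Bool} {d : ℕ} {p : X → ℕ} (hp : Function.Injective p) {i : ℕ}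
    {A : Finset X} {B : Finset Y} (hA : A.Nonempty)
    (hh : A.card ≤ 4 * (d + 1) * (A.filter (fun x => p x = i)).card) :
    ∃ A' ⊆ A, ∃ B' ⊆ B, A.card ≤ 4 * (d + 1) * A'.card ∧ B.card ≤ 4 * (d + 1) * B'.card ∧
      ∃ b, ∀ x ∈ A', ∀ y ∈ B', F x y = b := by
  classical
  obtain ⟨A', hA'⟩ : ∃ A', A' = A.filter (fun x => p x = i) := ⟨_, rfl⟩
  rw [← hA'] at hh
  have hne : A'.Nonempty := by
    rw [← card_pos]
    rcases Nat.eq_zero_or_pos A'.card with h0 | h0
    · rw [h0, mul_zero] at hh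
      have := card_pos.2 hA
      omega
    · exact h0
  obtain ⟨x0, hx0⟩ := hne
  obtain ⟨C1, hC1⟩ : ∃ C1, C1 = B.filter (fun y => F x0 y = true) := ⟨_, rfl⟩
  obtain ⟨C2, hC2⟩ : ∃ C2, C2 = B.filter (fun y => ¬ F x0 y = true) := ⟨_, rfl⟩
  have hc12 : C1.card + C2.card = B.card := by
    rw [hC1, hC2]
    exact card_filter_add_card_filter_not (s := B) (fun y => F x0 y = true)
  have hsame : ∀ x ∈ A', x = x0 := by
    intro x hx
    rw [hA'] at hx hx0
    exact hp ((mem_filter.1 hx).2.trans (mem_filter.1 hx0).2.symm)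
  have hAA : A' ⊆ A := by
    rw [hA']
    exact filter_subset _ _
  have hsz : ∀ m : ℕ, B.card ≤ 4 * m → B.card ≤ 4 * (d + 1) * m := by
    intro m h
    refine h.trans ?_
    have : 4 * (d + 1) * m = 4 * m + d * (4 * m) := by ring
    omega
  rcases Nat.lt_or_ge C1.card C2.card with h1 | h1
  · refine ⟨A', hAA, C2, ?_, hh, hsz _ (by omega), false, fun x hx y hy => ?_⟩
    · rw [hC2]
      exact filter_subset _ _
    · rw [hC2] at hy
      have hy' := mem_filter.1 hy
      rw [hsame x hx]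
      exact Bool.eq_false_iff.2 hy'.2
  · refine ⟨A', hAA, C1, ?_, hh, hsz _ (by omega), true, fun x hx y hy => ?_⟩
    · rw [hC1]
      exact filter_subset _ _
    · rw [hC1] at hy
      have hy' := mem_filter.1 hy
      rw [hsame x hx]
      exact hy'.2

/-- **Matrices of twin-width at most `d` are rich with `c = 4 (d + 1)`.** -/
theorem rich_tww {F : X → Y → Bool} {d : ℕ} (h : TwinWidthLE F d) : Rich F (4 * (d + 1)) := by
  classical
  intro A B hA hB
  obtain ⟨T, p, q, hp0, hq0, hpT, hqT, hstep, herr⟩ := h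
  obtain ⟨x0, hx0⟩ := hA
  obtain ⟨y0, hy0⟩ := hB
  have hA : A.Nonempty := ⟨x0, hx0⟩
  have hB : B.Nonempty := ⟨y0, hy0⟩
  -- the two kinds of heavy parts
  let HA : ℕ → Prop := fun t => ∃ i, A.card ≤ 4 * (d + 1) * (A.filter (fun x => p t x = i)).card
  let HB : ℕ → Prop := fun t => ∃ j, B.card ≤ 4 * (d + 1) * (B.filter (fun y => q t y = j)).card
  have hT : HA T ∨ HB T := by
    left
    refine ⟨p T x0, ?_⟩
    rw [filter_true_of_mem (fun x _ => hpT x x0)]
    exact Nat.le_mul_of_pos_left _ (by positivity)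
  have hex : ∃ t, HA t ∨ HB t := ⟨T, hT⟩
  have hle : Nat.find hex ≤ T := Nat.find_min' hex hT
  obtain ⟨t, ht⟩ : ∃ t, t = Nat.find hex := ⟨_, rfl⟩
  have hfind : HA t ∨ HB t := by
    rw [ht]
    exact Nat.find_spec hex
  rw [← ht] at hle
  have hmin : ∀ s < t, ¬ (HA s ∨ HB s) := by
    intro s hs
    rw [ht] at hs
    exact Nat.find_min hex hs
  -- swapping the two sides
  have hswap : (∃ B' ⊆ B, ∃ A' ⊆ A, B.card ≤ 4 * (d + 1) * B'.card ∧
      A.card ≤ 4 * (d + 1) * A'.card ∧ ∃ b, ∀ y ∈ B', ∀ x ∈ A', F x y = b) →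
      ∃ A' ⊆ A, ∃ B' ⊆ B, A.card ≤ 4 * (d + 1) * A'.card ∧ B.card ≤ 4 * (d + 1) * B'.card ∧
      ∃ b, ∀ x ∈ A', ∀ y ∈ B', F x y = b := by
    rintro ⟨B', h1, A', h2, h3, h4, b, hb⟩
    exact ⟨A', h2, B', h1, h4, h3, b, fun x hx y hy => hb y hy x hx⟩
  rcases Nat.eq_zero_or_pos t with h0 | hpos
  · subst h0
    rcases hfind with ⟨i, hi⟩ | ⟨j, hj⟩
    · exact single hp0 hA hi
    · exact hswap (single (F := fun y x => F x y) hq0 hB hj)
  · obtain ⟨s, rfl⟩ : ∃ s, t = s + 1 := ⟨t - 1, by omega⟩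
    have hs := hmin s (Nat.lt_succ_self s)
    have hsA : ¬ HA s := fun h => hs (Or.inl h)
    have hsB : ¬ HB s := fun h => hs (Or.inr h)
    have hlA : ∀ i, 4 * (d + 1) * (A.filter (fun x => p s x = i)).card ≤ A.card := by
      intro i
      by_contra hcon
      exact hsA ⟨i, by omega⟩
    have hlB : ∀ j, 4 * (d + 1) * (B.filter (fun y => q s y = j)).card ≤ B.card := by
      intro j
      by_contra hcon
      exact hsB ⟨j, by omega⟩
    obtain ⟨e1, e2⟩ := herr (s + 1) hle
    rcases hstep s (by omega) with ⟨_, hq⟩ | ⟨hp, _⟩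
    · rcases hfind with ⟨i, hi⟩ | hB'
      · obtain ⟨S, hS, hm⟩ := e1 i
        exact light hS hm hA hi (fun j => by rw [hq]; exact hlB j)
      · exfalso
        apply hsB
        obtain ⟨j, hj⟩ := hB'
        rw [hq] at hj
        exact ⟨j, hj⟩
    · rcases hfind with hA' | ⟨j, hj⟩
      · exfalso
        apply hsA
        obtain ⟨i, hi⟩ := hA'
        rw [hp] at hi
        exact ⟨i, hi⟩
      · obtain ⟨S, hS, hm⟩ := e2 j
        exact hswap (light (F := fun y x => F x y) hS (fun i hi => hm i hi.swap) hB hj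
          (fun i => by rw [hp]; exact hlA i))

end Pool.Agent.Y424.LR
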